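import Mathlib
import Pool.Agent.H60.SZ

open Polynomial Pool.Agent.H60.SZ in
/-- `P_{018}` is not convex (the first part checks that `s` is the power-sum polynomial). -/
theorem Pool.Agent.Results.MP_dbc085_nt.NotConvex.result :
    (∀ j, 1 ≤ j → ∀ N : ℕ, (s j).eval (N : ℚ) = ∑ i ∈ Finset.Icc 1 N, (i : ℚ) ^ j) ∧
    ∃ r, 1 ≤ r ∧ ∃ x : ℝ, aeval x (derivative (derivative (P r))) < 0 :=
  ⟨s_eval, 8, by norm_num, main⟩
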